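import Pool.Agent.H949.VW.Final

/-!
# The normalised width of the typical Poisson-Voronoi cell converges in probability (MP_24911a_pr, Q1)

Definitions in `Pool/Agent/H949/VW/Defs.lean`: `IsPoisson` (homogeneous Poisson point process),
`cell` (the Voronoi cell of the origin), `wid`, `width`, `kap d` (the volume of the unit ball) and the
limit constant `cst`, which is given by a deterministic variational problem: the infimum of the
widths `wid u (KZ z)` over all finite configurations `z` of vectors all of whose Gram determinants are
at least `1`, and all unit vectors `u`, where `KZ z` consists of the points of the unit ball which are
at least as close to `0` as to all points of `z`.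

Idea of the proof (intensity `1 / κ_d`). Upper bound: for a finite configuration `z` with all Gram
determinants larger than `1`, the second moment method shows that with high probability the Poisson
process contains points whose Gram matrix is close to the one of `z`. As the cell is contained in a
ball of radius `1 + δ`, its width is at most the one of `KZ z`, up to `ε`. Lower bound: by the first
moment method, for every fixed `M` with high probability there are no `k ≤ M` points of the process in
the ball of radius `2` whose Gram determinant is smaller than `1 - η`. On this event, for each
direction `u`, select greedily points of the process whose distance to the span of `u` and of the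
points selected before is at most `1 - η`. If this stops after a bounded number of steps, all other
points of the process are at distance at least `1 - η` from the span, therefore the section of the
cell with the span contains up to a factor the set `KZ z` of the selected points `z`, and the width
of the cell in direction `u` is at least `(1 - η)^2 cst`. If it does not stop, the Gram determinants
show that `u` is very near to the span of the selected points, and a second greedy selection, without
`u`, has to stop. These bounds hold uniformly in `u`.
-/

set_option autoImplicit false

namespace Pool.Agent.Results.MP_24911a_pr.WidthConverges

open MeasureTheory ProbabilityTheory Set Filter Topology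
open H949.VW

universe w

/-- Let `lam d > 0`, and for every `d ≥ 1` let `Z d` be a homogeneous Poisson point process on `ℝ^d` of
intensity `lam d`. Then the normalised width `(lam d * κ_d) ^ (1 / d) * width (cell (Z d ω))` of the
typical Poisson-Voronoi cell converges in probability to the constant `cst` as `d → ∞`. -/
theorem result (lam : ℕ → ℝ) (hlam : ∀ d, 0 < lam d) (Ω : ℕ → Type w)
    [∀ d, MeasurableSpace (Ω d)] (P : ∀ d, Measure (Ω d)) [∀ d, IsProbabilityMeasure (P d)]
    (Z : ∀ d, Ω d → Set (E d)) (hZ : ∀ d, 1 ≤ d → IsPoisson (P d) (Z d) (lam d))
    (ε : ℝ) (hε : 0 < ε) :
    Tendsto (fun d : ℕ => P d {ω | ε < |(lam d * kap d) ^ (1 / (d : ℝ)) *
      width (cell (Z d ω)) - cst|}) atTop (𝓝 0) :=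
  main lam hlam Ω P Z hZ ε hε

end Pool.Agent.Results.MP_24911a_pr.WidthConverges
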